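import Pool.Agent.helper71.NA.Energy

set_option autoImplicit false

/-!
# `Z/2 * V` is not amenable: ping-pong
-/

namespace Pool.Agent.helper71.NA

open Pool.Agent.helper7.UG Pool.Agent.helper10.NA

/-- Cosets of `V` in `Z/2 * V`. -/
abbrev St : Type := Bool × List (Fin 3)

/-- the third letter -/
def third (v u : Fin 3) : Fin 3 := -(u + v)

theorem third_ne {v u : Fin 3} (h : u ≠ v) : third v u ≠ v := by
  revert v u
  decide

theorem third_third (v u : Fin 3) : third v (third v u) = u := by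
  revert v u
  decide

/-- action of `v` -/
def vS (v : Fin 3) : St → St
  | (true, l) => (false, v :: l)
  | (false, []) => (false, [])
  | (false, u :: l) => if u = v then (true, l) else (false, third v u :: l)

theorem vS_invol (v : Fin 3) : Function.Involutive (vS v) := by
  rintro ⟨e, l⟩
  cases e with
  | true => simp [vS]
  | false =>
    cases l with
    | nil => rfl
    | cons u l =>
      by_cases h : u = v
      · subst h
        simp [vS]
      · simp only [vS, if_neg h, if_neg (third_ne h), third_third]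

/-- action of `a` -/
def aS : St → St := fun p => (!p.1, p.2)

theorem aS_invol : Function.Involutive aS := by
  rintro ⟨e, l⟩
  simp [aS]

/-- index of the letter -/
def lt (i : Fin 4) : Fin 3 := if i = 1 then 0 else if i = 2 then 1 else 2

/-- The action of the generators. -/
def gS (i : Fin 4) : Equiv.Perm St :=
  if i = 0 then aS_invol.toPerm else (vS_invol (lt i)).toPerm

theorem gS_zero : gS 0 = aS_invol.toPerm := rfl
theorem gS_one : gS 1 = (vS_invol 0).toPerm := rfl
theorem gS_two : gS 2 = (vS_invol 1).toPerm := rfl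
theorem gS_three : gS 3 = (vS_invol 2).toPerm := rfl

theorem gS_invol (i : Fin 4) : gS i * gS i = 1 := by
  unfold gS
  split_ifs
  · ext1 x
    exact aS_invol x
  · ext1 x
    exact vS_invol _ x

theorem gS_klein : gS 1 * gS 2 * gS 3 = 1 := by
  rw [gS_one, gS_two, gS_three]
  ext1 x
  show vS 0 (vS 1 (vS 2 x)) = x
  obtain ⟨e, l⟩ := x
  cases e with
  | true => rfl
  | false =>
    cases l with
    | nil => rfl
    | cons u l => fin_cases u <;> rfl

/-- The action of the free group. -/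
def homS : F4 →* Equiv.Perm St := FreeGroup.lift gS

theorem homS_of (i : Fin 4) : homS (FreeGroup.of i) = gS i := by simp [homS]

theorem K0_le_ker : K0 ≤ homS.ker := by
  unfold K0
  refine Subgroup.normalClosure_le_normal ?_
  rintro g (⟨i, rfl⟩ | h)
  · rw [SetLike.mem_coe, MonoidHom.mem_ker, map_mul, homS_of, gS_invol]
  · rw [Set.mem_singleton_iff] at h
    rw [h, SetLike.mem_coe, MonoidHom.mem_ker, map_mul, map_mul, homS_of, homS_of, homS_of,
      gS_klein]

/-- The orbit map. -/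
def orb : F4 ⧸ K0 → St :=
  Quotient.lift (fun w : F4 => homS w (false, [])) (by
    intro w w' h
    have h1 : w⁻¹ * w' ∈ K0 := QuotientGroup.leftRel_apply.1 h
    have h2 : homS (w⁻¹ * w') = 1 := K0_le_ker h1
    have h3 : w' = w * (w⁻¹ * w') := by group
    show homS w (false, []) = homS w' (false, [])
    rw [h3, map_mul, h2, mul_one])

theorem orb_smul (i : Fin 4) (x : F4 ⧸ K0) : orb (FreeGroup.of i • x) = gS i (orb x) := by
  induction x using QuotientGroup.induction_on with
  | H w =>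
    show homS (FreeGroup.of i * w) (false, []) = gS i (homS w (false, []))
    rw [map_mul, homS_of]
    rfl

/-- displacement of the mass of a set -/
theorem mass_shift {P : Type} {f : P → ℝ} (hf : f.support.Finite) (h1 : ∑' x, f x ^ 2 = 1)
    (s : Equiv.Perm P) (χ : P → ℝ) (h0 : ∀ x, 0 ≤ χ x) (hχ : ∀ x, χ x ≤ 1) :
    |∑' x, χ x * f x ^ 2 - ∑' x, χ (s x) * f x ^ 2| ≤
      10 * ∑' x, (f (s x) - f x) ^ 2 + 1 / 10 := by
  have hfs := fin_comp hf s
  have hs1 : Summable fun x => f x ^ 2 := summable_of_fin (fin_sq hf)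
  have hs2 : Summable fun x => f (s x) ^ 2 := (Equiv.summable_iff s).2 hs1
  have hD : Summable fun x => (f (s x) - f x) ^ 2 := summable_of_fin (fin_sq (fin_sub hfs hf))
  have e1 : ∑' x, f (s x) ^ 2 = 1 := by
    rw [← h1]
    exact s.tsum_eq (fun x => f x ^ 2)
  have e2 : ∑' x, χ x * f x ^ 2 = ∑' x, χ (s x) * f (s x) ^ 2 :=
    (s.tsum_eq (fun x => χ x * f x ^ 2)).symm
  have hs3 : Summable fun x => χ (s x) * f (s x) ^ 2 :=
    Summable.of_nonneg_of_le (fun x => mul_nonneg (h0 _) (sq_nonneg _))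
      (fun x => mul_le_of_le_one_left (sq_nonneg _) (hχ _)) hs2
  have hs4 : Summable fun x => χ (s x) * f x ^ 2 :=
    Summable.of_nonneg_of_le (fun x => mul_nonneg (h0 _) (sq_nonneg _))
      (fun x => mul_le_of_le_one_left (sq_nonneg _) (hχ _)) hs1
  have key : ∀ x, |χ (s x) * f (s x) ^ 2 - χ (s x) * f x ^ 2| ≤
      10 * (f (s x) - f x) ^ 2 + (1 / 20) * (f (s x) ^ 2 + f x ^ 2) := by
    intro x
    have h3 : |χ (s x) * f (s x) ^ 2 - χ (s x) * f x ^ 2| ≤ |f (s x) ^ 2 - f x ^ 2| := by
      rw [← mul_sub, abs_mul, abs_of_nonneg (h0 _)]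
      exact mul_le_of_le_one_left (abs_nonneg _) (hχ _)
    refine h3.trans ?_
    rw [abs_le]
    constructor <;>
      nlinarith [sq_nonneg (20 * (f (s x) - f x) + (f (s x) + f x)),
        sq_nonneg (20 * (f (s x) - f x) - (f (s x) + f x)), sq_nonneg (f (s x) - f x)]
  have hR : Summable fun x => 10 * (f (s x) - f x) ^ 2 + (1 / 20) * (f (s x) ^ 2 + f x ^ 2) :=
    (hD.mul_left 10).add ((hs2.add hs1).mul_left (1 / 20))
  have e3 : ∑' x, (10 * (f (s x) - f x) ^ 2 + (1 / 20) * (f (s x) ^ 2 + f x ^ 2)) =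
      10 * ∑' x, (f (s x) - f x) ^ 2 + 1 / 10 := by
    rw [(hD.mul_left 10).tsum_add ((hs2.add hs1).mul_left (1 / 20)), tsum_mul_left, tsum_mul_left,
      hs2.tsum_add hs1, e1, h1]
    norm_num
  rw [e2, ← hs3.tsum_sub hs4, ← e3]
  have hS : Summable fun x => χ (s x) * f (s x) ^ 2 - χ (s x) * f x ^ 2 := hs3.sub hs4
  rw [abs_le]
  constructor
  · rw [← tsum_neg]
    exact Summable.tsum_le_tsum (fun x => (abs_le.1 (key x)).1) hR.neg hS
  · exact Summable.tsum_le_tsum (fun x => (abs_le.1 (key x)).2) hS hR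

/-- the set of cosets beginning with `a` -/
def chA (x : St) : ℝ := if x.1 = true then 1 else 0

theorem chA_nonneg (x : St) : 0 ≤ chA x := by
  unfold chA
  split_ifs <;> norm_num

theorem chA_le (x : St) : chA x ≤ 1 := by
  unfold chA
  split_ifs <;> norm_num

theorem chA_flip (x : St) : chA (aS x) = 1 - chA x := by
  obtain ⟨e, l⟩ := x
  cases e <;> simp [chA, aS]

theorem chA_sum (x : St) : chA x + chA (vS 0 x) + chA (vS 1 x) + chA (vS 2 x) ≤ 1 := by
  obtain ⟨e, l⟩ := x
  cases e with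
  | true => simp [chA, vS]
  | false =>
    cases l with
    | nil => simp [chA, vS]
    | cons u l => fin_cases u <;> simp [chA, vS]

theorem gap_St {f : St → ℝ} (hf : f.support.Finite) (h1 : helper10.NA.sq f = 1) :
    1 / 160 ≤ En (fun i => gS i) f := by
  have h1' : ∑' x, f x ^ 2 = 1 := h1
  have hs1 : Summable fun x => f x ^ 2 := summable_of_fin (fin_sq hf)
  have hsum : ∀ χ : St → ℝ, (∀ x, 0 ≤ χ x) → (∀ x, χ x ≤ 1) →
      Summable fun x => χ x * f x ^ 2 := fun χ h0 h2 =>
    Summable.of_nonneg_of_le (fun x => mul_nonneg (h0 _) (sq_nonneg _))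
      (fun x => mul_le_of_le_one_left (sq_nonneg _) (h2 _)) hs1
  have m0 := mass_shift hf h1' (gS 0) chA chA_nonneg chA_le
  have m1 := mass_shift hf h1' (gS 1) chA chA_nonneg chA_le
  have m2 := mass_shift hf h1' (gS 2) chA chA_nonneg chA_le
  have m3 := mass_shift hf h1' (gS 3) chA chA_nonneg chA_le
  have sA := hsum chA chA_nonneg chA_le
  have s1 := hsum (fun x => chA (gS 1 x)) (fun x => chA_nonneg _) (fun x => chA_le _)
  have s2 := hsum (fun x => chA (gS 2 x)) (fun x => chA_nonneg _) (fun x => chA_le _)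
  have s3 := hsum (fun x => chA (gS 3 x)) (fun x => chA_nonneg _) (fun x => chA_le _)
  have e0 : ∑' x, chA (gS 0 x) * f x ^ 2 = 1 - ∑' x, chA x * f x ^ 2 := by
    rw [← h1', ← hs1.tsum_sub sA]
    refine tsum_congr fun x => ?_
    have : chA (gS 0 x) = 1 - chA x := chA_flip x
    rw [this]
    ring
  have e1 : ∑' x, chA x * f x ^ 2 + ∑' x, chA (gS 1 x) * f x ^ 2 +
      ∑' x, chA (gS 2 x) * f x ^ 2 + ∑' x, chA (gS 3 x) * f x ^ 2 ≤ 1 := by
    rw [← sA.tsum_add s1, ← (sA.add s1).tsum_add s2, ← ((sA.add s1).add s2).tsum_add s3]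
    refine le_trans (Summable.tsum_le_tsum (g := fun x => f x ^ 2) ?_
      (((sA.add s1).add s2).add s3) hs1) h1'.le
    intro x
    have h3 : chA x + chA (gS 1 x) + chA (gS 2 x) + chA (gS 3 x) ≤ 1 := chA_sum x
    have h4 := sq_nonneg (f x)
    nlinarith
  rw [e0] at m0
  unfold En
  rw [Fin.sum_univ_four]
  have w0 : wt 0 = 1 / 4 := by simp [wt]
  have w1 : wt 1 = 1 / 8 := by simp [wt]
  have w2 : wt 2 = 1 / 8 := by simp [wt]
  have w3 : wt 3 = 1 / 8 := by simp [wt]
  rw [w0, w1, w2, w3]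
  rw [abs_le] at m0 m1 m2 m3
  linarith [m0.1, m0.2, m1.1, m1.2, m2.1, m2.2, m3.1, m3.2]

/-- `Z/2 * V` is not amenable. -/
theorem en_K0_pos : 0 < en K0 := by
  have h : 1 / 160 ≤ en K0 := by
    refine le_csInf (enSet_nonempty K0) ?_
    rintro _ ⟨f, hf, h1, rfl⟩
    refine (gap_St (pf_fin orb hf) (by rw [sq_pf orb hf, h1])).trans ?_
    unfold En
    refine Finset.sum_le_sum fun i _ => mul_le_mul_of_nonneg_left ?_ (wt_pos i).le
    exact pf_diff orb hf (MulAction.toPerm (FreeGroup.of i)) (gS i) (gS i).injective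
      (fun x => orb_smul i x)
  linarith

end Pool.Agent.helper71.NA
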