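import Pool.Agent.helper71.NA.Push

set_option autoImplicit false

/-!
# Energies: basic facts, monotonicity, crude bound
-/

namespace Pool.Agent.helper71.NA

open Pool.Agent.helper7.UG Pool.Agent.helper10.NA

theorem wt_pos (i : Fin 4) : 0 < wt i := by
  unfold wt
  split_ifs <;> norm_num

section general
variable {P : Type}

theorem En_nonneg (s : Fin 4 → P → P) (f : P → ℝ) : 0 ≤ En s f :=
  Finset.sum_nonneg fun i _ => mul_nonneg (wt_pos i).le (tsum_nonneg fun _ => sq_nonneg _)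

theorem sq_smul (c : ℝ) (f : P → ℝ) : helper10.NA.sq (fun x => c * f x) = c ^ 2 * helper10.NA.sq f := by
  unfold helper10.NA.sq
  rw [← tsum_mul_left]
  exact tsum_congr fun x => by ring

theorem En_smul (s : Fin 4 → P → P) (c : ℝ) (f : P → ℝ) :
    En s (fun x => c * f x) = c ^ 2 * En s f := by
  unfold En
  rw [Finset.mul_sum]
  refine Finset.sum_congr rfl fun i _ => ?_
  have : ∑' x, (c * f (s i x) - c * f x) ^ 2 = c ^ 2 * ∑' x, (f (s i x) - f x) ^ 2 := by
    rw [← tsum_mul_left]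
    exact tsum_congr fun x => by ring
  rw [this]
  ring

theorem sq_pos_of_ne {f : P → ℝ} (hf : f.support.Finite) (h : f ≠ 0) : 0 < helper10.NA.sq f := by
  obtain ⟨x, hx⟩ := Function.ne_iff.1 h
  have h1 : 0 < f x ^ 2 := by
    have : f x ≠ 0 := hx
    positivity
  exact h1.trans_le ((summable_of_fin (fin_sq hf)).le_tsum x fun _ _ => sq_nonneg _)

end general

/-- The set of energies of the unit functions. -/
def enSet (K : Subgroup F4) : Set ℝ :=
  {t | ∃ f : F4 ⧸ K → ℝ, f.support.Finite ∧ helper10.NA.sq f = 1 ∧ En (lm K) f = t}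

theorem en_eq (K : Subgroup F4) : en K = sInf (enSet K) := rfl

theorem enSet_bdd (K : Subgroup F4) : BddBelow (enSet K) :=
  ⟨0, by rintro _ ⟨f, -, -, rfl⟩; exact En_nonneg _ _⟩

theorem enSet_nonempty (K : Subgroup F4) : (enSet K).Nonempty := by
  classical
  refine ⟨_, fun x => if x = ((1 : F4) : F4 ⧸ K) then 1 else 0, ?_, ?_, rfl⟩
  · refine (Set.finite_singleton ((1 : F4) : F4 ⧸ K)).subset ?_
    intro x hx
    by_contra h
    exact hx (if_neg h)
  · unfold helper10.NA.sq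
    rw [tsum_eq_single ((1 : F4) : F4 ⧸ K)]
    · simp
    · intro x hx
      simp [hx]

theorem en_nonneg (K : Subgroup F4) : 0 ≤ en K :=
  Real.sInf_nonneg fun _ ⟨_, _, _, h⟩ => h ▸ En_nonneg _ _

theorem en_le (K : Subgroup F4) {f : F4 ⧸ K → ℝ} (hf : f.support.Finite)
    (h1 : helper10.NA.sq f = 1) : en K ≤ En (lm K) f :=
  csInf_le (enSet_bdd K) ⟨f, hf, h1, rfl⟩

theorem gap_en (K : Subgroup F4) : Gap K (en K) := by
  intro f hf
  by_cases h : f = 0
  · subst h
    have h1 : helper10.NA.sq (0 : F4 ⧸ K → ℝ) = 0 := by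
      unfold helper10.NA.sq
      simp
    rw [h1, mul_zero]
    exact En_nonneg _ _
  · have hp := sq_pos_of_ne hf h
    set c := (√(helper10.NA.sq f))⁻¹ with hc
    have hc2 : c ^ 2 = (helper10.NA.sq f)⁻¹ := by
      rw [hc, inv_pow, Real.sq_sqrt hp.le]
    have h1 := en_le K (f := fun x => c * f x) ?_ ?_
    · rw [En_smul, hc2] at h1
      rw [mul_comm]
      calc helper10.NA.sq f * en K ≤ helper10.NA.sq f * ((helper10.NA.sq f)⁻¹ * En (lm K) f) :=
            mul_le_mul_of_nonneg_left h1 hp.le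
        _ = En (lm K) f := by rw [← mul_assoc, mul_inv_cancel₀ hp.ne', one_mul]
    · refine hf.subset fun x hx hx' => hx ?_
      simp [hx']
    · rw [sq_smul, hc2, inv_mul_cancel₀ hp.ne']

theorem exists_near (K : Subgroup F4) (δ : ℝ) (hδ : 0 < δ) :
    ∃ f : F4 ⧸ K → ℝ, f.support.Finite ∧ helper10.NA.sq f = 1 ∧ En (lm K) f < en K + δ := by
  obtain ⟨_, ⟨f, hf, h1, rfl⟩, h⟩ := exists_lt_of_csInf_lt (enSet_nonempty K)
    (show sInf (enSet K) < en K + δ by rw [← en_eq]; linarith)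
  exact ⟨f, hf, h1, h⟩

/-- The energy decreases under quotients. -/
theorem en_anti {K K' : Subgroup F4} (h : K ≤ K') : en K' ≤ en K := by
  refine le_of_forall_pos_le_add fun δ hδ => ?_
  obtain ⟨f, hf, h1, h2⟩ := exists_near K δ hδ
  let φ : F4 ⧸ K → F4 ⧸ K' := Subgroup.quotientMapOfLE h
  have h3 := en_le K' (pf_fin φ hf) (by rw [sq_pf φ hf, h1])
  refine h3.trans (le_trans ?_ h2.le)
  unfold En
  refine Finset.sum_le_sum fun i _ => mul_le_mul_of_nonneg_left ?_ (wt_pos i).le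
  refine pf_diff φ hf (MulAction.toPerm (FreeGroup.of i)) (lm K' i)
    (MulAction.injective (FreeGroup.of i)) ?_
  intro x
  induction x using QuotientGroup.induction_on with
  | H g => rfl

/-- Three displacements. -/
theorem three_diff {P : Type} {f : P → ℝ} (hf : f.support.Finite) (s t : Equiv.Perm P) :
    ∑' x, (f (s (t (s x))) - f x) ^ 2 ≤
      6 * ∑' x, (f (s x) - f x) ^ 2 + 3 * ∑' x, (f (t x) - f x) ^ 2 := by
  have hs := summable_of_fin (fin_sq (fin_sub (fin_comp hf s) hf))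
  have ht := summable_of_fin (fin_sq (fin_sub (fin_comp hf t) hf))
  have h1 : ∑' x, (f (s (t (s x))) - f (t (s x))) ^ 2 = ∑' x, (f (s x) - f x) ^ 2 :=
    (t * s : Equiv.Perm P).tsum_eq (fun x => (f (s x) - f x) ^ 2)
  have h1' : Summable fun x => (f (s (t (s x))) - f (t (s x))) ^ 2 :=
    (Equiv.summable_iff (t * s : Equiv.Perm P)).2 hs
  have h2 : ∑' x, (f (t (s x)) - f (s x)) ^ 2 = ∑' x, (f (t x) - f x) ^ 2 :=
    s.tsum_eq (fun x => (f (t x) - f x) ^ 2)
  have h2' : Summable fun x => (f (t (s x)) - f (s x)) ^ 2 :=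
    (Equiv.summable_iff s).2 ht
  have h3 : ∑' x, (f (s (t (s x))) - f x) ^ 2 ≤
      ∑' x, (3 * ((f (s (t (s x))) - f (t (s x))) ^ 2 + (f (t (s x)) - f (s x)) ^ 2 +
        (f (s x) - f x) ^ 2)) := by
    refine Summable.tsum_le_tsum ?_ ?_ (((h1'.add h2').add hs).mul_left 3)
    · intro x
      nlinarith [sq_nonneg ((f (s (t (s x))) - f (t (s x))) - (f (t (s x)) - f (s x))),
        sq_nonneg ((f (s (t (s x))) - f (t (s x))) - (f (s x) - f x)),
        sq_nonneg ((f (t (s x)) - f (s x)) - (f (s x) - f x))]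
    · exact summable_of_fin (fin_sq (fin_sub (fin_comp hf (s * t * s : Equiv.Perm P)) hf))
  refine h3.trans (le_of_eq ?_)
  rw [tsum_mul_left, (h1'.add h2').tsum_add hs, h1'.tsum_add h2', h1, h2]
  ring

/-- The section at `(true, y)` -/
def secMap (S : Finset (Fin 3)) (K : Subgroup F4) (y : Fin 3) (hy : y ∈ S) :
    F4 ⧸ (Kx S K).comap Psi → F4 ⧸ K :=
  Quotient.lift (fun w : F4 => (((Psi w).left true y : F4) : F4 ⧸ K)) (by
    intro w w' h
    have h1 : w⁻¹ * w' ∈ (Kx S K).comap Psi := QuotientGroup.leftRel_apply.1 h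
    rw [Subgroup.mem_comap, mem_Kx] at h1
    have h2 : w' = w * (w⁻¹ * w') := by group
    show (((Psi w).left true y : F4) : F4 ⧸ K) = (((Psi w').left true y : F4) : F4 ⧸ K)
    rw [QuotientGroup.eq, h2, map_mul, mul_left_apply, ← mul_assoc, inv_mul_cancel, one_mul]
    exact h1.2 _ y hy)

theorem secMap_mk (S : Finset (Fin 3)) (K : Subgroup F4) (y : Fin 3) (hy : y ∈ S) (w : F4) :
    secMap S K y hy ((w : F4) : F4 ⧸ (Kx S K).comap Psi) =
      (((Psi w).left true y : F4) : F4 ⧸ K) := rfl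

theorem secMap_smul (S : Finset (Fin 3)) (K : Subgroup F4) (y : Fin 3) (hy : y ∈ S) (g : F4)
    (hg : (Psi g).right = 1) (x : F4 ⧸ (Kx S K).comap Psi) :
    secMap S K y hy (g • x) = ((Psi g).left true y) • secMap S K y hy x := by
  induction x using QuotientGroup.induction_on with
  | H w =>
    show secMap S K y hy ((g * w : F4) : F4 ⧸ (Kx S K).comap Psi) = _
    rw [secMap_mk, secMap_mk, map_mul, mul_left_apply, hg]
    rfl

theorem exists_act (y : Fin 3) : ∃ v : Fin 4, v ≠ 0 ∧ act v y = true := by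
  revert y
  decide

theorem cases_ne (v : Fin 4) (h : v ≠ 0) : v = 1 ∨ v = 2 ∨ v = 3 := by
  revert v
  decide

theorem en_crude (S : Finset (Fin 3)) (K : Subgroup F4) (y : Fin 3) (hy : y ∈ S) :
    en K ≤ 12 * en ((Kx S K).comap Psi) := by
  set K1 := (Kx S K).comap Psi with hK1
  obtain ⟨v, hv0, hv⟩ := exists_act y
  refine le_of_forall_pos_le_add fun δ hδ => ?_
  obtain ⟨f, hf, h1, h2⟩ := exists_near K1 (δ / 12) (by positivity)
  let φ : F4 ⧸ K1 → F4 ⧸ K := secMap S K y hy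
  have h3 := en_le K (pf_fin φ hf) (by rw [sq_pf φ hf, h1])
  refine h3.trans ?_
  suffices h4 : En (lm K) (pf φ f) ≤ 12 * En (lm K1) f by linarith
  have hdir : ∀ i : Fin 4, i ≠ 0 → ∑' x, (pf φ f (lm K i x) - pf φ f x) ^ 2 ≤
      ∑' x, (f (lm K1 i x) - f x) ^ 2 := by
    intro i hi
    refine pf_diff φ hf (MulAction.toPerm (FreeGroup.of i)) (lm K i)
      (MulAction.injective (FreeGroup.of i)) ?_
    intro x
    show secMap S K y hy (FreeGroup.of i • x) = FreeGroup.of i • secMap S K y hy x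
    rw [secMap_smul S K y hy _ ?_ x, Psi_of]
    · simp [wgen, hi]
    · rw [Psi_of]
      simp [wgen, hi]
  have ha : ∑' x, (pf φ f (lm K 0 x) - pf φ f x) ^ 2 ≤
      6 * ∑' x, (f (lm K1 0 x) - f x) ^ 2 + 3 * ∑' x, (f (lm K1 v x) - f x) ^ 2 := by
    refine le_trans ?_ (three_diff hf (MulAction.toPerm (FreeGroup.of 0 : F4) : Equiv.Perm (F4 ⧸ K1))
      (MulAction.toPerm (FreeGroup.of v : F4)))
    refine pf_diff φ hf (MulAction.toPerm (FreeGroup.of 0 : F4) *
      (MulAction.toPerm (FreeGroup.of v : F4)) * (MulAction.toPerm (FreeGroup.of 0 : F4)) :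
        Equiv.Perm (F4 ⧸ K1)) (lm K 0)
      (MulAction.injective (FreeGroup.of 0 : F4)) ?_
    intro x
    show secMap S K y hy ((FreeGroup.of 0 : F4) • (FreeGroup.of v : F4) •
      (FreeGroup.of 0 : F4) • x) = (FreeGroup.of 0 : F4) • secMap S K y hy x
    rw [← mul_smul, ← mul_smul, secMap_smul S K y hy _ ?_ x]
    · rw [map_mul, map_mul, Psi_of, Psi_of, mul_left_apply, mul_left_apply]
      simp [wgen, hv0, hv]
    · rw [map_mul, map_mul, Psi_of, Psi_of]
      ext e
      simp [wgen, hv0]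
  have hn : ∀ i : Fin 4, 0 ≤ ∑' x, (f (lm K1 i x) - f x) ^ 2 := fun i =>
    tsum_nonneg fun _ => sq_nonneg _
  unfold En
  rw [Fin.sum_univ_four, Fin.sum_univ_four]
  have h5 := hdir 1 (by decide)
  have h6 := hdir 2 (by decide)
  have h7 := hdir 3 (by decide)
  have hv' : ∑' x, (f (lm K1 v x) - f x) ^ 2 ≤ ∑' x, (f (lm K1 1 x) - f x) ^ 2 +
      ∑' x, (f (lm K1 2 x) - f x) ^ 2 + ∑' x, (f (lm K1 3 x) - f x) ^ 2 := by
    have n1 := hn 1
    have n2 := hn 2
    have n3 := hn 3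
    rcases cases_ne v hv0 with h | h | h
    · rw [h]; linarith
    · rw [h]; linarith
    · rw [h]; linarith
  have w0 : wt 0 = 1 / 4 := by simp [wt]
  have w1 : wt 1 = 1 / 8 := by simp [wt]
  have w2 : wt 2 = 1 / 8 := by simp [wt]
  have w3 : wt 3 = 1 / 8 := by simp [wt]
  rw [w0, w1, w2, w3]
  have n0 := hn 0
  have n1 := hn 1
  have n2 := hn 2
  have n3 := hn 3
  linarith

end Pool.Agent.helper71.NA
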