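import Pool.Agent.helper10.NA.Defs

set_option autoImplicit false

/-!
# Push forward of finitely supported functions and energies
-/

namespace Pool.Agent.helper71.NA

open Pool.Agent.helper7.UG Pool.Agent.helper10.NA

section general
variable {P P' : Type}

theorem summable_of_fin {h : P → ℝ} (hh : h.support.Finite) : Summable h :=
  summable_of_hasFiniteSupport hh

theorem fin_sq {f : P → ℝ} (hf : f.support.Finite) : (fun x => f x ^ 2).support.Finite :=
  hf.subset fun x hx => by
    simp only [Function.mem_support] at hx ⊢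
    intro h
    apply hx
    rw [h]
    ring

theorem fin_comp {f : P → ℝ} (hf : f.support.Finite) (s : Equiv.Perm P) :
    (fun x => f (s x)).support.Finite := by
  have : (fun x => f (s x)).support = s ⁻¹' f.support := rfl
  rw [this]
  exact hf.preimage s.injective.injOn

theorem fin_sub {f g : P → ℝ} (hf : f.support.Finite) (hg : g.support.Finite) :
    (fun x => f x - g x).support.Finite :=
  (hf.union hg).subset fun x hx => by
    simp only [Function.mem_support] at hx
    by_contra hcon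
    simp only [Set.mem_union, Function.mem_support, not_or, not_not] at hcon
    exact hx (by rw [hcon.1, hcon.2, sub_zero])

theorem sq_nonneg' (f : P → ℝ) : 0 ≤ helper10.NA.sq f := tsum_nonneg fun _ => sq_nonneg _

/-- triangle inequality in `ℓ²` -/
theorem sqrt_sub_sq_le {u v : P → ℝ} (hu : u.support.Finite) (hv : v.support.Finite) :
    (√(∑' x, u x ^ 2) - √(∑' x, v x ^ 2)) ^ 2 ≤ ∑' x, (u x - v x) ^ 2 := by
  classical
  set T := hu.toFinset ∪ hv.toFinset with hT
  have h0 : ∀ x ∉ T, u x = 0 ∧ v x = 0 := by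
    intro x hx
    simp only [hT, Finset.mem_union, Set.Finite.mem_toFinset, Function.mem_support, not_or,
      not_not] at hx
    exact hx
  have h1 : ∑' x, u x ^ 2 = ∑ x ∈ T, u x ^ 2 :=
    tsum_eq_sum fun x hx => by rw [(h0 x hx).1]; ring
  have h2 : ∑' x, v x ^ 2 = ∑ x ∈ T, v x ^ 2 :=
    tsum_eq_sum fun x hx => by rw [(h0 x hx).2]; ring
  have h3 : ∑' x, (u x - v x) ^ 2 = ∑ x ∈ T, (u x - v x) ^ 2 :=
    tsum_eq_sum fun x hx => by rw [(h0 x hx).1, (h0 x hx).2]; ring
  rw [h1, h2, h3]
  have hA : 0 ≤ ∑ x ∈ T, u x ^ 2 := Finset.sum_nonneg fun x _ => sq_nonneg _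
  have hB : 0 ≤ ∑ x ∈ T, v x ^ 2 := Finset.sum_nonneg fun x _ => sq_nonneg _
  have h4 : ∑ x ∈ T, (u x - v x) ^ 2 =
      ∑ x ∈ T, u x ^ 2 + ∑ x ∈ T, v x ^ 2 - 2 * ∑ x ∈ T, u x * v x := by
    rw [Finset.mul_sum, ← Finset.sum_add_distrib, ← Finset.sum_sub_distrib]
    exact Finset.sum_congr rfl fun x _ => by ring
  have h5 := Real.sum_mul_le_sqrt_mul_sqrt T u v
  rw [h4, sub_sq, Real.sq_sqrt hA, Real.sq_sqrt hB]
  linarith

/-- summation over the fibres -/
theorem tsum_fib (φ : P → P') {h : P → ℝ} (hh : h.support.Finite) :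
    ∑' x, h x = ∑' y, ∑' x : {x // φ x = y}, h x := by
  rw [← (Equiv.sigmaFiberEquiv φ).tsum_eq h]
  refine Summable.tsum_sigma (f := fun p : (Σ y, {x // φ x = y}) => h (Equiv.sigmaFiberEquiv φ p)) ?_
  exact (Equiv.summable_iff _).2 (summable_of_fin hh)

/-- The push forward. -/
noncomputable def pf (φ : P → P') (f : P → ℝ) (y : P') : ℝ :=
  √(∑' x : {x // φ x = y}, f x ^ 2)

theorem pf_sq (φ : P → P') (f : P → ℝ) (y : P') :
    pf φ f y ^ 2 = ∑' x : {x // φ x = y}, f x ^ 2 :=
  Real.sq_sqrt (tsum_nonneg fun _ => sq_nonneg _)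

theorem pf_fin (φ : P → P') {f : P → ℝ} (hf : f.support.Finite) : (pf φ f).support.Finite := by
  refine (hf.image φ).subset ?_
  intro y hy
  by_contra hcon
  apply hy
  unfold pf
  have : ∀ x : {x // φ x = y}, f x ^ 2 = 0 := by
    rintro ⟨x, hx⟩
    by_contra h
    apply hcon
    exact ⟨x, fun h' => h (by simp only [h']; ring), hx⟩
  simp [this]

theorem sq_pf (φ : P → P') {f : P → ℝ} (hf : f.support.Finite) : helper10.NA.sq (pf φ f) = helper10.NA.sq f := by
  unfold helper10.NA.sq
  rw [tsum_fib φ (fin_sq hf)]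
  exact tsum_congr fun y => pf_sq φ f y

theorem fin_restrict {f : P → ℝ} (hf : f.support.Finite) (p : P → Prop) :
    (fun x : {x // p x} => f x).support.Finite := by
  have : (fun x : {x // p x} => f x).support = Subtype.val ⁻¹' f.support := rfl
  rw [this]
  exact hf.preimage Subtype.val_injective.injOn

/-- The push forward decreases the energy. -/
theorem pf_diff (φ : P → P') {f : P → ℝ} (hf : f.support.Finite) (s : Equiv.Perm P)
    (s' : P' → P') (hs' : Function.Injective s') (h : ∀ x, φ (s x) = s' (φ x)) :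
    ∑' y, (pf φ f (s' y) - pf φ f y) ^ 2 ≤ ∑' x, (f (s x) - f x) ^ 2 := by
  have hfs := fin_comp hf s
  have h1 : ∀ y, pf φ f (s' y) = √(∑' x : {x // φ x = y}, f (s x) ^ 2) := by
    intro y
    unfold pf
    congr 1
    let e : {x // φ x = y} ≃ {x // φ x = s' y} := s.subtypeEquiv fun x => by
      rw [h]
      exact ⟨fun h => by rw [h], fun h' => hs' h'⟩
    exact (e.tsum_eq (fun x : {x // φ x = s' y} => f x ^ 2)).symm
  rw [tsum_fib φ (fin_sq (fin_sub hfs hf))]
  have h2 : ∀ y, (pf φ f (s' y) - pf φ f y) ^ 2 ≤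
      ∑' x : {x // φ x = y}, (f (s x) - f x) ^ 2 := by
    intro y
    rw [h1 y]
    exact sqrt_sub_sq_le (u := fun x : {x // φ x = y} => f (s x))
      (v := fun x : {x // φ x = y} => f x) (fin_restrict hfs _) (fin_restrict hf _)
  have h3 : Summable fun y => ∑' x : {x // φ x = y}, (f (s x) - f x) ^ 2 := by
    have h4 := (Equiv.summable_iff (Equiv.sigmaFiberEquiv φ)).2
      (summable_of_fin (fin_sq (fin_sub hfs hf)))
    exact h4.sigma
  refine Summable.tsum_le_tsum h2 ?_ h3
  exact Summable.of_nonneg_of_le (fun y => sq_nonneg _) h2 h3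

end general

end Pool.Agent.helper71.NA
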